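import Pool.Agent.Run7.h373.CK.Stm
import Pool.Agent.W505.CG.Disc

set_option autoImplicit false

/-!
Piece DISC of helper373's project CK (`MP_176ace_nt`): copy of `Pool/Agent/W505/CG/Disc.lean` for a monic polynomial.
-/

namespace Pool.Agent.Run7.h713.CK

open Pool.Agent.W289.CG Pool.Agent.W505.CG Pool.Agent.Run7.h373.CK Polynomial NumberField

theorem discG (K : Type) [Field K] [NumberField K] (n : ℕ) (A : ℤ[X]) (hAm : A.Monic)
    (hAd : A.natDegree = n) (L S : ℤ) (q : ℕ) (θ : K) (hn : 2 ≤ n) (hq : q.Prime)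
    (hqL : (q : ℤ) ∣ L) (hqL2 : ¬ (q : ℤ) ^ 2 ∣ L) (hqS : ¬ (q : ℤ) ∣ S)
    (hθ : (L : K) * aeval θ A + (S : K) = 0) : (q : ℤ) ∣ discr K := by
  have hAn : A.coeff n = 1 := by
    have := hAm.coeff_natDegree
    rwa [hAd] at this
  set u : ℤ := L * A.coeff 0 + S with hu
  have hqp : Prime (q : ℤ) := Nat.prime_iff_prime_int.mp hq
  have hqu : ¬ (q : ℤ) ∣ u := by
    rw [hu]
    intro h
    exact hqS ((Int.dvd_add_right (Dvd.dvd.mul_right hqL _)).mp h)
  have hu0 : u ≠ 0 := fun h => hqu (by rw [h]; exact dvd_zero _)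
  have hprod : aeval θ A = ∑ i ∈ Finset.range (n + 1), (A.coeff i : K) * θ ^ i := by
    rw [aeval_eq_sum_range, hAd]
    refine Finset.sum_congr rfl fun i _ => ?_
    rw [zsmul_eq_mul]
  have hrel : (u : K) + L * ∑ i ∈ Finset.range n, (A.coeff (i + 1) : K) * θ ^ (i + 1) = 0 := by
    rw [hprod, Finset.sum_range_succ'] at hθ
    rw [← hθ, hu]
    push_cast
    ring
  have huK : (u : K) ≠ 0 := by exact_mod_cast hu0
  have hθ0 : θ ≠ 0 := by
    rintro rfl
    simp [huK] at hrel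
  set y : K := u / θ with hy
  have hyrel : y ^ n + L * ∑ i ∈ Finset.range n, (A.coeff (i + 1) : K) * u ^ i * y ^ (n - 1 - i) =
      0 := by
    have h1 : (u : K) ^ (n - 1) / θ ^ n * ((u : K) +
        L * ∑ i ∈ Finset.range n, (A.coeff (i + 1) : K) * θ ^ (i + 1)) = 0 := by
      rw [hrel, mul_zero]
    rw [← h1, mul_add]
    congr 1
    · rw [hy, div_pow]
      obtain ⟨m, rfl⟩ : ∃ m, n = m + 1 := ⟨n - 1, by omega⟩
      rw [Nat.add_sub_cancel]
      ring
    · have e : ∀ i ∈ Finset.range n, (A.coeff (i + 1) : K) * u ^ i * y ^ (n - 1 - i) =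
          (u : K) ^ (n - 1) / θ ^ n * ((A.coeff (i + 1) : K) * θ ^ (i + 1)) := by
        intro i hi
        rw [Finset.mem_range] at hi
        obtain ⟨k, hk⟩ : ∃ k, n = i + 1 + k := ⟨n - 1 - i, by omega⟩
        have e1 : n - 1 - i = k := by omega
        have e2 : n - 1 = i + k := by omega
        rw [e1, e2, mul_assoc, ← aux_pow (u : K) θ hθ0 i k, ← hk]
        ring
      rw [Finset.sum_congr rfl e, ← Finset.mul_sum]
      ring
  -- integrality
  have hint : IsIntegral ℤ y := by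
    set g : ℤ[X] := C L * ∑ i ∈ Finset.range n, C (A.coeff (i + 1) * u ^ i) * X ^ (n - 1 - i)
      with hg
    refine ⟨X ^ n + g, monic_X_pow_add ?_, ?_⟩
    · have h1 : g.natDegree ≤ n - 1 := by
        rw [hg]
        refine (natDegree_C_mul_le _ _).trans ?_
        refine natDegree_sum_le_of_forall_le _ _ fun i _ => ?_
        exact (natDegree_C_mul_X_pow_le _ _).trans (Nat.sub_le _ _)
      refine lt_of_le_of_lt degree_le_natDegree ?_
      exact_mod_cast (by omega : g.natDegree < n)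
    · rw [← aeval_def, map_add, map_pow, aeval_X, hg, map_mul, map_sum, aeval_C]
      rw [← hyrel]
      congr 2
      refine Finset.sum_congr rfl fun i _ => ?_
      rw [map_mul, map_pow, aeval_X, aeval_C]
      simp
  obtain ⟨Y, hY⟩ : ∃ Y : 𝓞 K, (Y : K) = y := ⟨⟨y, hint⟩, rfl⟩
  have hYrel : Y ^ n + L * ∑ i ∈ Finset.range n, (A.coeff (i + 1) : 𝓞 K) * u ^ i *
      Y ^ (n - 1 - i) = 0 := by
    apply FaithfulSMul.algebraMap_injective (𝓞 K) K
    have hY' : algebraMap (𝓞 K) K Y = y := hY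
    simp only [map_add, map_pow, map_mul, map_sum, map_intCast, map_zero, hY']
    exact hyrel
  -- a prime above `q`
  have hqnu : ¬ IsUnit ((q : ℤ) : 𝓞 K) := by
    intro h
    have h1 := Algebra.norm ℤ ((q : ℤ) : 𝓞 K)
    have h2 : IsUnit (Algebra.norm ℤ ((q : ℤ) : 𝓞 K)) := h.map _
    have h3 : Algebra.norm ℤ ((q : ℤ) : 𝓞 K) = (q : ℤ) ^ Module.finrank ℤ (𝓞 K) := by
      have := Algebra.norm_algebraMap (S := 𝓞 K) (q : ℤ)
      simpa using this
    rw [h3] at h2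
    have h4 : Module.finrank ℤ (𝓞 K) ≠ 0 := by
      rw [RingOfIntegers.rank]
      exact Module.finrank_pos.ne'
    exact hqp.not_isUnit ((isUnit_pow_iff h4).mp h2)
  obtain ⟨P, hPmax, hqP⟩ := exists_max_ideal_of_mem_nonunits hqnu
  have hint' : ∀ z : ℤ, (z : 𝓞 K) ∈ P → (q : ℤ) ∣ z := by
    intro z hz
    by_contra hh
    obtain ⟨c, d, hcd⟩ := (Irreducible.coprime_iff_not_dvd hqp.irreducible).mpr hh
    apply hPmax.ne_top
    rw [Ideal.eq_top_iff_one]
    have : (1 : 𝓞 K) = (c : 𝓞 K) * ((q : ℤ) : 𝓞 K) + (d : 𝓞 K) * (z : 𝓞 K) := by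
      exact_mod_cast hcd.symm
    rw [this]
    exact P.add_mem (P.mul_mem_left _ hqP) (P.mul_mem_left _ hz)
  have hLP : (L : 𝓞 K) ∈ P := by
    obtain ⟨L', rfl⟩ := hqL
    rw [Int.cast_mul]
    exact P.mul_mem_right _ hqP
  have hYP : Y ∈ P := by
    refine hPmax.isPrime.mem_of_pow_mem n ?_
    rw [eq_neg_of_add_eq_zero_left hYrel]
    exact P.neg_mem (P.mul_mem_right _ hLP)
  have hsq : (L : 𝓞 K) * (u : 𝓞 K) ^ (n - 1) ∈ P ^ 2 := by
    obtain ⟨m, rfl⟩ : ∃ m, n = m + 2 := ⟨n - 2, by omega⟩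
    rw [Finset.sum_range_succ] at hYrel
    have e0 : m + 2 - 1 = m + 1 := by omega
    have e1 : m + 2 - 1 - (m + 1) = 0 := by omega
    rw [e1, pow_zero, mul_one, show m + 1 + 1 = m + 2 by ring, hAn, Int.cast_one, one_mul,
      mul_add, ← add_assoc] at hYrel
    rw [e0, ← neg_mem_iff, ← eq_neg_of_add_eq_zero_left hYrel]
    refine Ideal.add_mem _ ?_ ?_
    · rw [pow_add]
      exact Ideal.mul_mem_left _ _ (Ideal.pow_mem_pow hYP 2)
    · rw [pow_two]
      refine Ideal.mul_mem_mul hLP ?_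
      refine P.sum_mem fun i hi => ?_
      rw [Finset.mem_range] at hi
      refine P.mul_mem_left _ ?_
      exact P.pow_mem_of_mem hYP _ (by omega)
  have hq2 : ((q : ℤ) : 𝓞 K) ∈ P ^ 2 := by
    obtain ⟨L', hL'⟩ := hqL
    have h1 : ¬ (q : ℤ) ∣ L' * u ^ (n - 1) := by
      intro h
      rcases hqp.dvd_or_dvd h with h | h
      · exact hqL2 (by rw [hL', pow_two]; exact mul_dvd_mul_left _ h)
      · exact hqu (hqp.dvd_of_dvd_pow h)
    obtain ⟨c, d, hcd⟩ := (Irreducible.coprime_iff_not_dvd hqp.irreducible).mpr h1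
    have h2 : ((q : ℤ) : 𝓞 K) = (c : 𝓞 K) * (((q : ℤ) : 𝓞 K) * ((q : ℤ) : 𝓞 K)) +
        (d : 𝓞 K) * ((L : 𝓞 K) * (u : 𝓞 K) ^ (n - 1)) := by
      have h3 : (q : ℤ) = c * (q * q) + d * (L * u ^ (n - 1)) := by
        rw [hL']
        calc (q : ℤ) = q * (c * q + d * (L' * u ^ (n - 1))) := by rw [hcd, mul_one]
          _ = _ := by ring
      exact_mod_cast congrArg (Int.cast : ℤ → 𝓞 K) h3
    rw [h2]
    refine Ideal.add_mem _ (Ideal.mul_mem_left _ _ ?_) (Ideal.mul_mem_left _ _ hsq)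
    rw [pow_two]
    exact Ideal.mul_mem_mul hqP hqP
  -- the different
  have hmax : (Ideal.span {(q : ℤ)}).IsMaximal :=
    PrincipalIdealRing.isMaximal_of_irreducible hqp.irreducible
  have hPd : P ^ (2 - 1) ∣ differentIdeal ℤ (𝓞 K) := by
    refine pow_sub_one_dvd_differentIdeal ℤ (p := Ideal.span {(q : ℤ)}) P 2 ?_ ?_
    · rw [Ne, Ideal.span_singleton_eq_bot]
      exact hqp.ne_zero
    · rw [Ideal.map_span, Set.image_singleton, Ideal.dvd_span_singleton]
      simpa using hq2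
  rw [show 2 - 1 = 1 by norm_num, pow_one] at hPd
  have h5 : Ideal.absNorm P ∣ (discr K).natAbs := by
    rw [← absNorm_differentIdeal K (𝓞 K)]
    exact map_dvd _ hPd
  have h6 : (q : ℤ) ∣ (Ideal.absNorm P : ℤ) := hint' _ (by exact_mod_cast Ideal.absNorm_mem P)
  have h7 : (Ideal.absNorm P : ℤ) ∣ discr K := Int.natCast_dvd.mpr h5
  exact h6.trans h7

theorem t_DISC : S_DISC := fun K _ _ A L S q θ hA hn _ hq hqL hqL2 hqS hθ _ =>
  discG K A.natDegree A hA rfl L S q θ hn hq hqL hqL2 hqS hθ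

end Pool.Agent.Run7.h713.CK
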