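import Pool.Agent.Run7.h373.CK.Stm
import Pool.Agent.W505.CG.Irr

set_option autoImplicit false

/-!
Piece IRR of helper373's project CK (`MP_176ace_nt`): copy of `Pool/Agent/W505/CG/Irr.lean` for a monic polynomial.
-/

namespace Pool.Agent.Run7.h713.CK

open Pool.Agent.W289.CG Pool.Agent.W505.CG Pool.Agent.Run7.h373.CK Polynomial

theorem irrG (n : ℕ) (A : ℤ[X]) (hAm : A.Monic) (hAd : A.natDegree = n) (L S : ℤ) (q : ℕ)
    (hn : 1 ≤ n) (hq : q.Prime) (hqL : (q : ℤ) ∣ L) (hqL2 : ¬ (q : ℤ) ^ 2 ∣ L)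
    (hqS : ¬ (q : ℤ) ∣ S) (hLS : IsCoprime L S) :
    Irreducible ((C L * A + C S).map (Int.castRingHom ℚ)) := by
  have hAn : A.coeff n = 1 := by
    have := hAm.coeff_natDegree
    rwa [hAd] at this
  set F : ℤ[X] := C L * A + C S with hF
  have hL0 : L ≠ 0 := by
    rintro rfl
    exact hqL2 (dvd_zero _)
  have hc : ∀ j, 1 ≤ j → F.coeff j = L * A.coeff j := by
    intro j hj
    rw [hF, coeff_add, coeff_C_mul, coeff_C_of_ne_zero (by omega), add_zero]
  have hc0 : F.coeff 0 = L * A.coeff 0 + S := by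
    rw [hF, coeff_add, coeff_C_mul, coeff_C_zero]
  have hFn : F.coeff n = L := by rw [hc n hn, hAn, mul_one]
  have hFd : F.natDegree = n := by
    refine le_antisymm ?_ (le_natDegree_of_ne_zero (by rw [hFn]; exact hL0))
    refine natDegree_add_le_of_degree_le ?_ ?_
    · exact (natDegree_C_mul_le _ _).trans hAd.le
    · rw [natDegree_C]; omega
  have hq0 : ¬ (q : ℤ) ∣ F.coeff 0 := by
    rw [hc0]
    intro h
    exact hqS ((Int.dvd_add_right (Dvd.dvd.mul_right hqL _)).mp h)
  have hF0 : F.coeff 0 ≠ 0 := fun h => hq0 (by rw [h]; exact dvd_zero _)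
  have hprimr : ∀ r : ℤ, r ∣ L → r ∣ F.coeff 0 → IsUnit r := by
    intro r h1 h2
    rw [hc0] at h2
    exact hLS.isUnit_of_dvd' h1 ((Int.dvd_add_right (Dvd.dvd.mul_right h1 _)).mp h2)
  have hprim : F.IsPrimitive := by
    intro r hr
    rw [C_dvd_iff_dvd_coeff] at hr
    exact hprimr r (hFn ▸ hr n) (hr 0)
  rw [← IsPrimitive.Int.irreducible_iff_irreducible_map_cast hprim]
  refine irr_of_reverse hF0 ?_
  have hRd : F.reverse.natDegree = n := by rw [natDegree_reverse' hF0, hFd]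
  have hRc : ∀ j, j ≤ n → F.reverse.coeff j = F.coeff (n - j) := by
    intro j hj
    rw [coeff_reverse, hFd, revAt_le hj]
  have hqp : Prime (q : ℤ) := Nat.prime_iff_prime_int.mp hq
  refine irreducible_of_eisenstein_criterion (P := Ideal.span {(q : ℤ)})
    ((Ideal.span_singleton_prime hqp.ne_zero).mpr hqp) ?_ ?_ ?_ ?_ ?_
  · rw [leadingCoeff, hRd, hRc n le_rfl, Nat.sub_self, Ideal.mem_span_singleton]
    exact hq0
  · intro j hj
    have hj' : j < n := by
      rw [← hRd]
      exact lt_of_lt_of_le (by exact_mod_cast (lt_of_lt_of_le hj degree_le_natDegree)) le_rfl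
    rw [hRc j hj'.le, hc (n - j) (by omega), Ideal.mem_span_singleton]
    exact Dvd.dvd.mul_right hqL _
  · rw [← natDegree_pos_iff_degree_pos, hRd]
    omega
  · rw [hRc 0 (Nat.zero_le _), Nat.sub_zero, hFn, Ideal.span_singleton_pow,
      Ideal.mem_span_singleton]
    exact hqL2
  · intro r hr
    rw [C_dvd_iff_dvd_coeff] at hr
    refine hprimr r ?_ ?_
    · have := hr 0
      rwa [hRc 0 (Nat.zero_le _), Nat.sub_zero, hFn] at this
    · have := hr n
      rwa [hRc n le_rfl, Nat.sub_self] at this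

theorem t_IRR : S_IRR := fun A L S q hA hn hq hqL hqL2 hqS hLS =>
  irrG A.natDegree A hA rfl L S q hn hq hqL hqL2 hqS hLS

end Pool.Agent.Run7.h713.CK
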